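import Pool.Agent.Lib.MP_ffb54b_al.P3.Final3
import Pool.Agent.Lib.MP_ffb54b_al.P2.Fin4

set_option autoImplicit false

namespace Pool.Agent.Results.MP_ffb54b_al.Rigidity

open Pool.Agent.Lib.MP_ffb54b_al

universe u

/-- For every function `f` there is a positive function `g` such that, for every prime `p`, every
`g p`-approximation `G` to `N(p)` for which the implication in (H) holds (if `G` is an
`f p`-approximation then its lower central factors are those of `N(p)`) is isomorphic to `N(p)`. -/
theorem result (f : ℕ → ℕ) :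
    ∃ g : ℕ → ℕ, (∀ p, 0 < g p) ∧ ∀ p, p.Prime →
      ∀ (G : Type u) [Group G] [TopologicalSpace G] [IsTopologicalGroup G],
        (IsApprox G p (f p) → ∀ i, 1 ≤ i → Nonempty (Factor G i ≃* Factor (Nott p) i)) →
        IsApprox G p (g p) → Nonempty (G ≃ₜ* Nott p) := by
  obtain ⟨n, hn⟩ := P2.O4.rigid2.{u}
  refine ⟨fun p => max (f p) (if p = 2 then n + 1 else if p = 3 then 200 else 5 * p + 1),
    fun p => lt_of_lt_of_le (by split_ifs <;> omega) (le_max_right _ _),
    fun p hp G _ _ _ hf hG => ?_⟩
  have := Fact.mk hp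
  rcases eq_or_ne p 2 with rfl | h2
  · exact hn G (P2.mono_of_open P2.isOpen_gamma hG ((Nat.le_succ n).trans (le_max_right _ _)))
      (hf (P2.mono_of_open P2.isOpen_gamma hG (le_max_left _ _)))
  rcases eq_or_ne p 3 with rfl | h3
  · exact P3.rigid3 hf hG
  · have h5 : 5 ≤ p := hp.five_le_of_ne_two_of_ne_three h2 h3
    exact rigid h5 (by simp [h2, h3]) hG (hf (hG.mono h5 (le_max_left _ _)))

end Pool.Agent.Results.MP_ffb54b_al.Rigidity
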